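import Pool.Agent.Q161.ESN.Stm4
import Pool.Agent.Q224.ESF.LCG
import Pool.Agent.Q149.ESM.ZEXa

/-!
# Project ESN (helper161), job LCG: the local conditions for the elements of the Selmer group,
twists by elements of a number field
-/

set_option autoImplicit false
set_option linter.all false

namespace Pool.Agent.Q193.ESN

open Polynomial NumberField IsDedekindDomain Finset
open Pool.Agent.Q51.EL (Abv Par)
open Pool.Agent.Q161.ESM (QR)
open Pool.Agent.Q161.ESN
open Pool.Agent.Q161.ESF (CubF)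
open Pool.Agent.Q193.ESG (U1 exp_of_ne int_mem val_int val_Δ exists_N dif_val fac blk_three mvp qr_of sq3)
open Pool.Agent.Q224.ESF (bl bl_val bl_two triU evnU sq1U sq2U par_of)
open scoped Classical

section main

variable {F L K : Type} [Field F] [NumberField F] [Field L] [NumberField L] [Algebra F L]
  [Field K] [NumberField K] [Algebra F K] [IsGalois ℚ K]

/-- the three embeddings -/
theorem three {a b : F} {th : L} (hirr : Irreducible (X ^ 3 + C a * X + C b : F[X]))
    (hroot : th ^ 3 + algebraMap F L a * th + algebraMap F L b = 0) (hdeg : Module.finrank F L = 3)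
    (ι : L →ₐ[F] K) : ∃ ι2 ι3 : L →ₐ[F] K, (∀ ι' : L →ₐ[F] K, ι' = ι ∨ ι' = ι2 ∨ ι' = ι3) ∧
      ι ≠ ι2 ∧ ι ≠ ι3 ∧ ι2 ≠ ι3 ∧ ι th ≠ ι2 th ∧ ι th ≠ ι3 th ∧ ι2 th ≠ ι3 th := by
  obtain ⟨j2, j3, hb, h12, h13, h23, t12, t13, t23⟩ := blk_three hirr hroot hdeg (ι : L →+* K)
  have c2 := (hb j2).2 (Or.inr (Or.inl rfl))
  have c3 := (hb j3).2 (Or.inr (Or.inr rfl))
  have e2 : ∀ r : F, j2 (algebraMap F L r) = algebraMap F K r := fun r =>
    (congrArg (fun g : F →+* K => g r) c2).trans (ι.commutes r)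
  have e3 : ∀ r : F, j3 (algebraMap F L r) = algebraMap F K r := fun r =>
    (congrArg (fun g : F →+* K => g r) c3).trans (ι.commutes r)
  have hcoe : ∀ {f g : L →ₐ[F] K}, (f : L →+* K) = (g : L →+* K) → f = g := by
    intro f g h
    ext z
    exact congrArg (fun u : L →+* K => u z) h
  refine ⟨⟨j2, e2⟩, ⟨j3, e3⟩, fun ι' => ?_, ?_, ?_, ?_, t12, t13, t23⟩
  · have hc : (ι' : L →+* K).comp (algebraMap F L) = (ι : L →+* K).comp (algebraMap F L) := by
      ext r
      exact (ι'.commutes r).trans (ι.commutes r).symm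
    rcases (hb (ι' : L →+* K)).1 hc with h | h | h
    · exact Or.inl (hcoe h)
    · exact Or.inr (Or.inl (hcoe h))
    · exact Or.inr (Or.inr (hcoe h))
  · intro h
    exact t12 (by rw [h]; rfl)
  · intro h
    exact t13 (by rw [h]; rfl)
  · intro h
    exact t23 (congrArg (fun f : L →ₐ[F] K => f th) h)

/-- the local situation at one embedding -/
theorem locN {a b : 𝓞 F} {th : 𝓞 L} (hirr : Irreducible (X ^ 3 + C (a : F) * X + C (b : F) : F[X]))
    (hroot : (th : L) ^ 3 + algebraMap F L a * (th : L) + algebraMap F L b = 0)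
    (hdeg : Module.finrank F L = 3) {N : ℕ} (hN : (4 * a ^ 3 + 27 * b ^ 2 : 𝓞 F) ∣ (N : 𝓞 F))
    {w : HeightOneSpectrum (𝓞 K)} {l : ℕ} (hl : l.Prime) (hw : Abv w l) (hlN : ¬ l ∣ N)
    {D x y : F} (ι : L →ₐ[F] K)
    (hxy : w.valuation K (algebraMap F K
      ((x ^ 3 + ((a : F) * D ^ 2) * x + (b : F) * D ^ 3) / y ^ 2 - 1)) < 1) :
    ∃ ι2 ι3 : L →ₐ[F] K, (∀ ι' : L →ₐ[F] K, ι' = ι ∨ ι' = ι2 ∨ ι' = ι3) ∧
      ι ≠ ι2 ∧ ι ≠ ι3 ∧ ι2 ≠ ι3 ∧
      w.valuation K (ι (th : L)) ≤ 1 ∧ w.valuation K (ι2 (th : L)) ≤ 1 ∧ w.valuation K (ι3 (th : L)) ≤ 1 ∧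
      w.valuation K (ι (th : L) - ι2 (th : L)) = 1 ∧ w.valuation K (ι (th : L) - ι3 (th : L)) = 1 ∧
      w.valuation K (ι2 (th : L) - ι3 (th : L)) = 1 ∧
      U1 (w.valuation K) ((algebraMap F K x - algebraMap F K D * ι (th : L)) *
        (algebraMap F K x - algebraMap F K D * ι2 (th : L)) *
        (algebraMap F K x - algebraMap F K D * ι3 (th : L)) / algebraMap F K y ^ 2) := by
  obtain ⟨ι2, ι3, hb, h12, h13, h23, t12, t13, t23⟩ := three hirr hroot hdeg ι
  have hr : ∀ ι' : L →ₐ[F] K,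
      (ι' (th : L)) ^ 3 + algebraMap F K a * ι' (th : L) + algebraMap F K b = 0 := by
    intro ι'
    have h1 := congrArg ι' hroot
    rw [map_add, map_add, map_mul, map_pow, map_zero, ι'.commutes, ι'.commutes] at h1
    exact h1
  have r1 := hr ι
  have r2 := hr ι2
  have r3 := hr ι3
  have v1 : w.valuation K (ι (th : L)) ≤ 1 := val_int w (ι : L →+* K) th
  have v2 : w.valuation K (ι2 (th : L)) ≤ 1 := val_int w (ι2 : L →+* K) th
  have v3 : w.valuation K (ι3 (th : L)) ≤ 1 := val_int w (ι3 : L →+* K) th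
  have hΔ : w.valuation K (4 * (algebraMap F K a) ^ 3 + 27 * (algebraMap F K b) ^ 2) = 1 := by
    have h1 := val_Δ hN hl hw hlN (algebraMap F K)
    have h2 : (algebraMap F K) ((4 * a ^ 3 + 27 * b ^ 2 : 𝓞 F) : F) =
        4 * (algebraMap F K a) ^ 3 + 27 * (algebraMap F K b) ^ 2 := by
      have h3 : ((4 * a ^ 3 + 27 * b ^ 2 : 𝓞 F) : F) = 4 * (a : F) ^ 3 + 27 * (b : F) ^ 2 := by
        push_cast
        rfl
      rw [h3]
      simp only [map_add, map_mul, map_pow, map_ofNat]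
    rwa [h2] at h1
  obtain ⟨d12, d13, d23⟩ := dif_val r1 r2 r3 t12 t13 t23 hΔ v1 v2 v3
  refine ⟨ι2, ι3, hb, h12, h13, h23, v1, v2, v3, d12, d13, d23, ?_⟩
  rw [← fac r1 r2 r3 t12 t13 t23]
  simp only [map_sub, map_div₀, map_add, map_mul, map_pow, map_one] at hxy
  exact hxy

/-- the type -/
noncomputable def en (w : HeightOneSpectrum (𝓞 K)) (th : 𝓞 L) (D x : K) (ι : L →ₐ[F] K) : ZMod 2 :=
  if w.valuation K (x - D * ι (th : L)) = WithZero.exp (-1 : ℤ) then 1 else 0

/-- the square roots -/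
noncomputable def rn (w : HeightOneSpectrum (𝓞 K)) (th : 𝓞 L) (D x y : K)
    (e : (L →ₐ[F] K) → ZMod 2) (ι : L →ₐ[F] K) : K :=
  if WithZero.exp (-1 : ℤ) < w.valuation K x then y / x
  else if e ι = 0 then y / D
  else D * ∏ ι' ∈ univ.filter (fun ι' : L →ₐ[F] K => e ι' = 0), (ι' (th : L) - ι (th : L))

theorem cp_app (g : K ≃ₐ[F] K) (ι : L →ₐ[F] K) (z : L) : cp g ι z = g (ι z) := rfl

theorem cp_inj (g : K ≃ₐ[F] K) {ι ι' : L →ₐ[F] K} (h : cp g ι = cp g ι') : ι = ι' := by
  ext z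
  apply g.injective
  exact congrArg (fun f : L →ₐ[F] K => f z) h

theorem cp_symm (g : K ≃ₐ[F] K) (ι : L →ₐ[F] K) : cp g (cp g.symm ι) = ι := by
  ext z
  show g (g.symm (ι z)) = ι z
  exact g.apply_symm_apply _

theorem mvpF {w : HeightOneSpectrum (𝓞 K)} {l : ℕ} (hl : l ≠ 0) {g : K ≃ₐ[F] K} (h : Fb w l g) (x : K) :
    w.valuation K (g x) = w.valuation K x :=
  mvp (F := g.restrictScalars ℚ) hl h x

theorem rn_eqv {w : HeightOneSpectrum (𝓞 K)} {g : K ≃ₐ[F] K}
    (th : 𝓞 L) (D x y : F) (e : (L →ₐ[F] K) → ZMod 2) (he : ∀ ι, e (cp g ι) = e ι) (ι : L →ₐ[F] K) :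
    g (rn w th (algebraMap F K D) (algebraMap F K x) (algebraMap F K y) e ι) =
      rn w th (algebraMap F K D) (algebraMap F K x) (algebraMap F K y) e (cp g ι) := by
  unfold rn
  by_cases h1 : WithZero.exp (-1 : ℤ) < w.valuation K (algebraMap F K x)
  · rw [if_pos h1, if_pos h1, map_div₀, g.commutes, g.commutes]
  · rw [if_neg h1, if_neg h1, he ι]
    by_cases h2 : e ι = 0
    · rw [if_pos h2, if_pos h2, map_div₀, g.commutes, g.commutes]
    · rw [if_neg h2, if_neg h2, map_mul, g.commutes, map_prod]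
      congr 1
      refine prod_bij (fun ι' _ => cp g ι') ?_ ?_ ?_ ?_
      · intro ι' h
        have g2 := (mem_filter.1 h).2
        refine mem_filter.2 ⟨mem_univ _, ?_⟩
        rw [he]
        exact g2
      · intro ι1 _ ι2 _ h
        exact cp_inj g h
      · intro ι' h
        have g2 := (mem_filter.1 h).2
        refine ⟨cp g.symm ι', ?_, cp_symm g ι'⟩
        refine mem_filter.2 ⟨mem_univ _, ?_⟩
        rw [← he, cp_symm]
        exact g2
      · intro ι' _
        rw [map_sub]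
        rfl

theorem uu_zero {th : 𝓞 L} {e : (L →ₐ[F] K) → ZMod 2} {ι : L →ₐ[F] K}
    (S : Finset (L →ₐ[F] K)) (hS : ∀ ι', ι' ∈ S ↔ e ι' = 1) (h : e ι = 0) :
    uu th e ι = ∏ ι' ∈ S, (ι (th : L) - ι' (th : L)) := by
  unfold uu
  rw [if_pos h]
  apply prod_congr _ fun _ _ => rfl
  ext ι'
  rw [mem_filter, hS]
  simp

theorem uu_one {th : 𝓞 L} {e : (L →ₐ[F] K) → ZMod 2} {ι : L →ₐ[F] K}
    (S : Finset (L →ₐ[F] K)) (hS : ∀ ι', ι' ∈ S ↔ e ι' = 0) (h : ¬ e ι = 0) :
    uu th e ι = - ∏ ι' ∈ S, (ι (th : L) - ι' (th : L)) := by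
  unfold uu
  rw [if_neg h]
  congr 1
  apply prod_congr _ fun _ _ => rfl
  ext ι'
  rw [mem_filter, hS]
  simp

theorem rn_one {w : HeightOneSpectrum (𝓞 K)} {th : 𝓞 L} {D x y : K} {e : (L →ₐ[F] K) → ZMod 2}
    {ι : L →ₐ[F] K} (S : Finset (L →ₐ[F] K)) (hS : ∀ ι', ι' ∈ S ↔ e ι' = 0)
    (h1 : ¬ WithZero.exp (-1 : ℤ) < w.valuation K x) (h : ¬ e ι = 0) :
    rn w th D x y e ι = D * ∏ ι' ∈ S, (ι' (th : L) - ι (th : L)) := by
  unfold rn
  rw [if_neg h1, if_neg h]
  congr 1
  apply prod_congr _ fun _ _ => rfl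
  ext ι'
  rw [mem_filter, hS]
  simp

theorem sum3 {ι ι2 ι3 : L →ₐ[F] K} (hb : ∀ ι' : L →ₐ[F] K, ι' = ι ∨ ι' = ι2 ∨ ι' = ι3)
    (h12 : ι ≠ ι2) (h13 : ι ≠ ι3) (h23 : ι2 ≠ ι3)
    (e : (L →ₐ[F] K) → ZMod 2) : ∑ ι', e ι' = e ι + e ι2 + e ι3 := by
  have h : (univ : Finset (L →ₐ[F] K)) = {ι, ι2, ι3} := by
    ext ι'
    have := hb ι'
    simp [this]
  rw [h, sum_insert, sum_insert, sum_singleton, add_assoc]
  · rw [mem_singleton]
    exact h23
  · rw [mem_insert, mem_singleton]
    rintro (h0 | h0)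
    · exact h12 h0
    · exact h13 h0

/-- the ramified case at one embedding -/
theorem loc_oddN {a b : 𝓞 F} {th : 𝓞 L} (hirr : Irreducible (X ^ 3 + C (a : F) * X + C (b : F) : F[X]))
    (hroot : (th : L) ^ 3 + algebraMap F L a * (th : L) + algebraMap F L b = 0)
    (hdeg : Module.finrank F L = 3) {N : ℕ} (hN : (4 * a ^ 3 + 27 * b ^ 2 : 𝓞 F) ∣ (N : 𝓞 F))
    {w : HeightOneSpectrum (𝓞 K)} {l : ℕ} (hl : l.Prime) (hw : Abv w l) (hlN : ¬ l ∣ N)
    {D x y : F} (hy0 : y ≠ 0)
    (hvD : w.valuation K (algebraMap F K D) = WithZero.exp (-1 : ℤ)) (ι : L →ₐ[F] K)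
    (hxy : w.valuation K (algebraMap F K
      ((x ^ 3 + ((a : F) * D ^ 2) * x + (b : F) * D ^ 3) / y ^ 2 - 1)) < 1)
    {e : (L →ₐ[F] K) → ZMod 2} (he : e = en w th (algebraMap F K D) (algebraMap F K x)) :
    (∑ ι', e ι' = 0) ∧
    (e ι = 0 → Par w (algebraMap F K x - algebraMap F K D * ι (th : L)) 0) ∧
    (e ι = 1 → Par w (algebraMap F K x - algebraMap F K D * ι (th : L)) 1) ∧
    U1 (w.valuation K) ((algebraMap F K x - algebraMap F K D * ι (th : L)) *
      (if e ι = 1 then algebraMap F K D else 1) * uu th e ι /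
        (rn w th (algebraMap F K D) (algebraMap F K x) (algebraMap F K y) e ι) ^ 2) := by
  have hy : algebraMap F K y ≠ 0 := (_root_.map_ne_zero _).2 hy0
  obtain ⟨ι2, ι3, hb, h12, h13, h23, v1, v2, v3, d12, d13, d23, hE⟩ :=
    locN hirr hroot hdeg hN hl hw hlN ι hxy
  have pos : ∀ ι' : L →ₐ[F] K, w.valuation K (algebraMap F K x - algebraMap F K D * ι' (th : L)) =
      WithZero.exp (-1 : ℤ) → e ι' = 1 := by
    intro ι' h
    rw [he]
    unfold en
    rw [if_pos h]
  have neg : ∀ ι' : L →ₐ[F] K, w.valuation K (algebraMap F K x - algebraMap F K D * ι' (th : L)) ≠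
      WithZero.exp (-1 : ℤ) → e ι' = 0 := by
    intro ι' h
    rw [he]
    unfold en
    rw [if_neg h]
  have h10 : ¬ (1 : ZMod 2) = 0 := by decide
  have h01 : ¬ (0 : ZMod 2) = 1 := by decide
  have hp1 : w.valuation K (algebraMap F K x - algebraMap F K D * ι (th : L)) = WithZero.exp (-1 : ℤ) →
      Par w (algebraMap F K x - algebraMap F K D * ι (th : L)) 1 := by
    intro h
    exact ⟨-1, by rw [h]; norm_num⟩
  rw [sum3 hb h12 h13 h23]
  rcases triU hvD v1 v2 v3 d12 d13 d23 hy hE with ⟨hx, g1, g2, g3, k, hk⟩ | ⟨hx, hc⟩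
  · have E1 := neg ι (by rw [g1]; exact hx.ne')
    have E2 := neg ι2 (by rw [g2]; exact hx.ne')
    have E3 := neg ι3 (by rw [g3]; exact hx.ne')
    refine ⟨by rw [E1, E2, E3]; rfl, fun _ => ⟨k, by rw [g1, hk]⟩, fun h => absurd (E1.symm.trans h) h01, ?_⟩
    have hu : uu th e ι = 1 := by
      rw [uu_zero ∅ (fun ι' => ?_) E1, prod_empty]
      constructor
      · intro h
        exact absurd h (notMem_empty _)
      · intro h2
        rcases hb ι' with rfl | rfl | rfl
        · exact absurd (E1.symm.trans h2) h01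
        · exact absurd (E2.symm.trans h2) h01
        · exact absurd (E3.symm.trans h2) h01
    have hr : rn w th (algebraMap F K D) (algebraMap F K x) (algebraMap F K y) e ι =
        algebraMap F K y / algebraMap F K x := by
      unfold rn
      rw [if_pos hx]
    rw [hu, hr, E1, if_neg h01, mul_one, mul_one]
    exact sq1U hvD v2 v3 hy hE hx
  · have hx' : ¬ WithZero.exp (-1 : ℤ) < w.valuation K (algebraMap F K x) := not_lt.2 hx
    rcases hc with ⟨g1, g2, g3, k, hk⟩ | ⟨g1, g2, g3, k, hk⟩ | ⟨g1, g2, g3, k, hk⟩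
    · have E1 := neg ι g1.ne
      have E2 := pos ι2 g2
      have E3 := pos ι3 g3
      refine ⟨by rw [E1, E2, E3]; decide, fun _ => ⟨k, by rw [hk]⟩, fun h => absurd (E1.symm.trans h) h01, ?_⟩
      have hu : uu th e ι = (ι (th : L) - ι2 (th : L)) * (ι (th : L) - ι3 (th : L)) := by
        rw [uu_zero {ι2, ι3} (fun ι' => ?_) E1, prod_pair h23]
        rw [mem_insert, mem_singleton]
        constructor
        · rintro (rfl | rfl)
          · exact E2
          · exact E3
        · intro h2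
          rcases hb ι' with rfl | rfl | rfl
          · exact absurd (E1.symm.trans h2) h01
          · exact Or.inl rfl
          · exact Or.inr rfl
      have hr : rn w th (algebraMap F K D) (algebraMap F K x) (algebraMap F K y) e ι =
          algebraMap F K y / algebraMap F K D := by
        unfold rn
        rw [if_neg hx', if_pos E1]
      rw [hu, hr, E1, if_neg h01, mul_one]
      exact sq2U hvD hy hE g1 g2 g3
    · have E1 := pos ι g1
      have E2 := neg ι2 g2.ne
      have E3 := pos ι3 g3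
      have E1' : ¬ e ι = 0 := fun h => h10 (E1.symm.trans h)
      refine ⟨by rw [E1, E2, E3]; decide, fun h => absurd h E1', fun _ => hp1 g1, ?_⟩
      have hS : ∀ ι', ι' ∈ ({ι2} : Finset (L →ₐ[F] K)) ↔ e ι' = 0 := by
        intro ι'
        rw [mem_singleton]
        constructor
        · rintro rfl
          exact E2
        · intro h2
          rcases hb ι' with rfl | rfl | rfl
          · exact absurd h2 E1'
          · rfl
          · exact absurd (E3.symm.trans h2) h10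
      rw [uu_one {ι2} hS E1', rn_one {ι2} hS hx' E1', prod_singleton, prod_singleton, E1, if_pos rfl]
      exact sq3 hvD d12 g2
    · have E1 := pos ι g1
      have E2 := pos ι2 g2
      have E3 := neg ι3 g3.ne
      have E1' : ¬ e ι = 0 := fun h => h10 (E1.symm.trans h)
      refine ⟨by rw [E1, E2, E3]; decide, fun h => absurd h E1', fun _ => hp1 g1, ?_⟩
      have hS : ∀ ι', ι' ∈ ({ι3} : Finset (L →ₐ[F] K)) ↔ e ι' = 0 := by
        intro ι'
        rw [mem_singleton]
        constructor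
        · rintro rfl
          exact E3
        · intro h2
          rcases hb ι' with rfl | rfl | rfl
          · exact absurd h2 E1'
          · exact absurd (E2.symm.trans h2) h10
          · rfl
      rw [uu_one {ι3} hS E1', rn_one {ι3} hS hx' E1', prod_singleton, prod_singleton, E1, if_pos rfl]
      exact sq3 hvD d13 g3

end main

/-- **JOB LCG** -/
theorem lcg : S_LCG := by
  intro F L _ _ _ _ _ a b th hC K _ _ _ _ hj
  have hirr := hC.irr
  have hroot := hC.root
  have hdeg := hC.deg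
  obtain ⟨B0, hB0, hB⟩ := Pool.Agent.Q224.ESM.frx K
  have hΔ : (4 * a ^ 3 + 27 * b ^ 2 : 𝓞 F) ≠ 0 := by
    intro h
    apply Pool.Agent.Q193.ESG.disc_ne hirr
    have h1 := congrArg (fun z : 𝓞 F => (z : F)) h
    push_cast at h1
    exact h1
  obtain ⟨N, hN0, hN⟩ := exists_N hΔ
  refine ⟨2 * B0 * N, mul_ne_zero (mul_ne_zero two_ne_zero hB0) hN0, ?_⟩
  intro B hBB _ D hD δ hδ0 hLV
  have hex : ∀ v : HeightOneSpectrum (𝓞 F), ∃ (x y : F) (η : L), (2 : 𝓞 F) ∉ v.asIdeal → (y ≠ 0 ∧ η ≠ 0 ∧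
      v.valuation F ((x ^ 3 + ((a : F) * (D : F) ^ 2) * x + (b : F) * (D : F) ^ 3) / y ^ 2 - 1) < 1 ∧
      ∀ V : HeightOneSpectrum (𝓞 L), V.asIdeal.comap (algebraMap (𝓞 F) (𝓞 L)) = v.asIdeal →
        V.valuation L (δ / ((algebraMap F L x - algebraMap F L (D : F) * (th : L)) * η ^ 2) - 1) < 1) := by
    intro v
    by_cases h2 : (2 : 𝓞 F) ∈ v.asIdeal
    · exact ⟨0, 0, 0, fun h => absurd h2 h⟩
    · obtain ⟨x, y, η, h⟩ := hLV v h2
      exact ⟨x, y, η, fun _ => h⟩
  choose x y η hxyη using hex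
  have hl2 : ∀ {l : ℕ}, ¬ l ∣ B → l ≠ 2 := by
    rintro l hlB rfl
    exact hlB (dvd_trans ⟨B0 * N, by ring⟩ hBB)
  -- the data at a prime
  have hdat : ∀ {l : ℕ} (hl : l.Prime) (hlB : ¬ l ∣ B) {w : HeightOneSpectrum (𝓞 K)} (hw : Abv w l),
      ∃ (X Y : F) (H : L), Y ≠ 0 ∧ H ≠ 0 ∧
      w.valuation K (algebraMap F K
        ((X ^ 3 + ((a : F) * (D : F) ^ 2) * X + (b : F) * (D : F) ^ 3) / Y ^ 2 - 1)) < 1 ∧
      ∀ ι : L →ₐ[F] K, U1 (w.valuation K)
        (ι δ / ((algebraMap F K X - algebraMap F K (D : F) * ι (th : L)) * ι H ^ 2)) := by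
    intro l hl hlB w hw
    obtain ⟨g1, g2, g3, g4⟩ := hxyη _ (bl_two hl (hl2 hlB) hw (algebraMap F K))
    refine ⟨_, _, _, g1, g2, bl_val hl.ne_zero hw (algebraMap F K) g3, fun ι => ?_⟩
    have hov : (bl hl.ne_zero hw (ι : L →+* K)).asIdeal.comap (algebraMap (𝓞 F) (𝓞 L)) =
        (bl hl.ne_zero hw (algebraMap F K)).asIdeal := by
      ext z
      show RingOfIntegers.mapRingHom (ι : L →+* K) (algebraMap (𝓞 F) (𝓞 L) z) ∈ w.asIdeal ↔
        RingOfIntegers.mapRingHom (algebraMap F K) z ∈ w.asIdeal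
      have : RingOfIntegers.mapRingHom (ι : L →+* K) (algebraMap (𝓞 F) (𝓞 L) z) =
          RingOfIntegers.mapRingHom (algebraMap F K) z := by
        apply RingOfIntegers.coe_injective
        exact ι.commutes (z : F)
      rw [this]
    have h1 := bl_val hl.ne_zero hw (ι : L →+* K) (g4 (bl hl.ne_zero hw (ι : L →+* K)) hov)
    have h2 : (ι : L →+* K) (δ / ((algebraMap F L (x (bl hl.ne_zero hw (algebraMap F K))) -
        algebraMap F L (D : F) * (th : L)) * η (bl hl.ne_zero hw (algebraMap F K)) ^ 2) - 1) =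
        ι δ / ((algebraMap F K (x (bl hl.ne_zero hw (algebraMap F K))) -
          algebraMap F K (D : F) * ι (th : L)) * ι (η (bl hl.ne_zero hw (algebraMap F K))) ^ 2) - 1 := by
      show ι (δ / ((algebraMap F L (x (bl hl.ne_zero hw (algebraMap F K))) -
        algebraMap F L (D : F) * (th : L)) * η (bl hl.ne_zero hw (algebraMap F K)) ^ 2) - 1) = _
      rw [map_sub, map_one, map_div₀, map_mul, map_pow, map_sub, map_mul, ι.commutes, ι.commutes]
    rw [h2] at h1
    exact h1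
  constructor
  · intro l hl hlB w hw hlD ι
    have hlN : ¬ l ∣ N := fun h => hlB (dvd_trans (h.mul_left _) hBB)
    obtain ⟨X, Y, H, g1, g2, g3, g4⟩ := hdat hl hlB hw
    obtain ⟨ι2, ι3, hb, h12, h13, h23, v1, v2, v3, d12, d13, d23, hE⟩ :=
      locN hirr hroot hdeg hN hl hw hlN ι g3
    have hvD : w.valuation K (algebraMap F K (D : F)) = 1 := Pool.Agent.Q124.ESM.val_one hlD
    obtain ⟨k, hk⟩ := evnU hvD v1 v2 v3 d12 d13 d23 ((_root_.map_ne_zero _).2 g1) hE
    have hη : ι H ≠ 0 := (_root_.map_ne_zero ι).2 g2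
    have he : algebraMap F K X - algebraMap F K (D : F) * ι (th : L) ≠ 0 := by
      intro h0
      have := (g4 ι).ne
      rw [h0, zero_mul, div_zero] at this
      exact this rfl
    exact par_of hη he (g4 ι) ⟨k, by rw [hk]⟩
  · intro l hl hlB w hw hlD
    have hlN : ¬ l ∣ N := fun h => hlB (dvd_trans (h.mul_left _) hBB)
    have hlB0 : ¬ l ∣ B0 := fun h => hlB (dvd_trans ((h.mul_left _).mul_right _) hBB)
    have hvl := Pool.Agent.Q237.ESM.val_l hl (hB l hl hlB0).1 hw
    have hvD : w.valuation K (algebraMap F K (D : F)) = WithZero.exp (-1 : ℤ) := by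
      obtain ⟨v, hv⟩ := Pool.Agent.Q149.ESM.exists_blw (algebraMap F K) w l hl.ne_zero hw
      have h1 := Pool.Agent.Q149.ESM.val_blw (algebraMap F K) hl.ne_zero (hB l hl hlB0).1 hw hv (D : F)
      have hvl' : Abv v l := by
        show (l : 𝓞 F) ∈ v.asIdeal
        rw [hv, map_natCast]
        exact hw
      have h2 : w.valuation K (algebraMap F K (D : F)) < 1 :=
        (Pool.Agent.Q124.ESM.mem_of_val_lt (iO F K D)).2 hlD
      rw [h1] at h2 ⊢
      rcases hD.2 l hl hlB v hvl' with h3 | h3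
      · exact absurd h3 h2.ne
      · exact h3
    obtain ⟨X, Y, H, g1, g2, g3, g4⟩ := hdat hl hlB hw
    obtain ⟨e, he⟩ : ∃ e : (L →ₐ[F] K) → ZMod 2,
      e = en w th (algebraMap F K (D : F)) (algebraMap F K X) := ⟨_, rfl⟩
    have H' := fun ι : L →ₐ[F] K => loc_oddN hirr hroot hdeg hN hl hw hlN g1 hvD ι g3 he
    have hη : ∀ ι : L →ₐ[F] K, ι H ≠ 0 := fun ι => (_root_.map_ne_zero ι).2 g2
    have hεne : ∀ ι : L →ₐ[F] K, algebraMap F K X - algebraMap F K (D : F) * ι (th : L) ≠ 0 := by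
      intro ι h0
      have := (g4 ι).ne
      rw [h0, zero_mul, div_zero] at this
      exact this rfl
    obtain ⟨ι0⟩ := hj
    refine ⟨e, (H' ι0).1, fun ι => ⟨fun h => ?_, fun h => ?_⟩, fun g hg => ?_⟩
    · exact par_of (hη ι) (hεne ι) (g4 ι) ((H' ι).2.1 h)
    · exact par_of (hη ι) (hεne ι) (g4 ι) ((H' ι).2.2.1 h)
    · have heg : ∀ ι, e (cp g ι) = e ι := by
        intro ι
        rw [he]
        unfold en
        have h1 : algebraMap F K X - algebraMap F K (D : F) * (cp g ι) (th : L) =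
            g (algebraMap F K X - algebraMap F K (D : F) * ι (th : L)) := by
          rw [map_sub, map_mul, g.commutes, g.commutes]
          rfl
        rw [h1, mvpF hl.ne_zero hg]
      refine ⟨heg, fun A hA => ?_⟩
      obtain ⟨R, hR⟩ : ∃ R : (L →ₐ[F] K) → K, R = fun ι =>
        rn w th (algebraMap F K (D : F)) (algebraMap F K X) (algebraMap F K Y) e ι * ι H := ⟨_, rfl⟩
      have hRg : ∀ ι, g (R ι) = R (cp g ι) := by
        intro ι
        rw [hR]
        show g (rn w th (algebraMap F K (D : F)) (algebraMap F K X) (algebraMap F K Y) e ι * ι H) =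
          rn w th (algebraMap F K (D : F)) (algebraMap F K X) (algebraMap F K Y) e (cp g ι) * (cp g ι) H
        rw [map_mul, rn_eqv th (D : F) X Y e heg ι]
        rfl
      have hUA : ∀ ι ∈ A, U1 (w.valuation K) (ι δ * (if e ι = 1 then algebraMap F K (D : F) else 1) *
          uu th e ι / (R ι) ^ 2) := by
        intro ι _
        have h1 := (H' ι).2.2.2
        have h2 := (g4 ι).mul h1
        rw [hR]
        have h4 : ι δ / ((algebraMap F K X - algebraMap F K (D : F) * ι (th : L)) * ι H ^ 2) *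
            ((algebraMap F K X - algebraMap F K (D : F) * ι (th : L)) *
              (if e ι = 1 then algebraMap F K (D : F) else 1) * uu th e ι /
              (rn w th (algebraMap F K (D : F)) (algebraMap F K X) (algebraMap F K Y) e ι) ^ 2) =
            ι δ * (if e ι = 1 then algebraMap F K (D : F) else 1) * uu th e ι /
              (rn w th (algebraMap F K (D : F)) (algebraMap F K X) (algebraMap F K Y) e ι * ι H) ^ 2 := by
          have h5 := hεne ι
          have h6 := hη ι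
          have h7 : rn w th (algebraMap F K (D : F)) (algebraMap F K X) (algebraMap F K Y) e ι ≠ 0 := by
            intro h0
            have := h1.ne
            rw [h0, zero_pow two_ne_zero, div_zero] at this
            exact this rfl
          field_simp
        rw [← h4]
        exact h2
      have h2 := U1.prod hUA
      rw [prod_div_distrib, prod_pow] at h2
      refine qr_of (F := g.restrictScalars ℚ) hl (hl2 hlB) hvl hg (r := ∏ ι ∈ A, R ι) ?_ ?_ h2
      · intro h0
        rw [h0, zero_pow two_ne_zero, div_zero] at h2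
        exact h2.ne rfl
      · show g (∏ ι ∈ A, R ι) = _
        rw [map_prod]
        refine prod_bij (fun ι _ => cp g ι) ?_ ?_ ?_ ?_
        · intro ι h
          exact (hA ι).1 h
        · intro ι1 _ ι2 _ h
          exact cp_inj g h
        · intro ι h
          exact ⟨cp g.symm ι, (hA _).2 (by rw [cp_symm]; exact h), cp_symm g ι⟩
        · intro ι _
          exact hRg ι

end Pool.Agent.Q193.ESN
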