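import Pool.Agent.Q161.ESN.Stm4
import Pool.Agent.Q182.ESF.Apx

/-!
# Project ESN (helper161), job APX: approximation, twists by elements of a number field
-/

set_option autoImplicit false

namespace Pool.Agent.Q193.ESN

open Polynomial NumberField IsDedekindDomain
open Pool.Agent.Q161.ESN Pool.Agent.Q182.ESF
open Pool.Agent.Q161.ESF (CubF)

/-- the case of a twist by an element which is integral at `v` -/
theorem apx_int {F L : Type} [Field F] [NumberField F] [Field L] [NumberField L] [Algebra F L]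
    {a b : 𝓞 F} {th : 𝓞 L} (hcub : CubF (a : F) (b : F) L (th : L)) {D : F}
    {v : HeightOneSpectrum (𝓞 F)} (hDv : v.valuation F D ≤ 1) {δ : L} {d : F[X]}
    {x y : v.adicCompletion F} {g : (v.adicCompletion F)[X]}
    (hd : aeval (algebraMap F L D * (th : L)) d = δ) (hy : y ≠ 0)
    (hxy : y ^ 2 = x ^ 3 + algebraMap F (v.adicCompletion F) ((a : F) * D ^ 2) * x +
      algebraMap F (v.adicCompletion F) ((b : F) * D ^ 3))
    (hdvd : (X ^ 3 + C ((a : F) * D ^ 2) * X + C ((b : F) * D ^ 3) : F[X]).map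
      (algebraMap F (v.adicCompletion F)) ∣
        C x - X - d.map (algebraMap F (v.adicCompletion F)) * g ^ 2) : LV a b th D v δ := by
  obtain ⟨q, hq⟩ := hdvd
  have hvι : ∀ c : F, Valued.v (algebraMap F (v.adicCompletion F) c) = v.valuation F c :=
    fun c => HeightOneSpectrum.valuedAdicCompletion_eq_valuation' v c
  have hA : v.valuation F ((a : F) * D ^ 2) ≤ 1 := by
    rw [map_mul, map_pow]
    exact mul_le_one' (v.valuation_le_one a) (pow_le_one₀ zero_le hDv)
  obtain ⟨x', y', g', q', hy'0, h1, h2⟩ := local_approx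
    (w := Valued.v (R := v.adicCompletion F)) (algebraMap F (v.adicCompletion F)) (happ v)
    ((a : F) * D ^ 2) ((b : F) * D ^ 3) (by rw [hvι]; exact hA) d x y g q hy hxy hq
  rw [hvι] at h1
  have h2' := fun n i hi => h2 n i hi
  simp only [hvι] at h2'
  have hroot : (algebraMap F L D * (th : L)) ^ 3 + algebraMap F L ((a : F) * D ^ 2) *
      (algebraMap F L D * (th : L)) + algebraMap F L ((b : F) * D ^ 3) = 0 := by
    have h3 := hcub.root
    rw [map_mul, map_mul, map_pow, map_pow]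
    linear_combination (algebraMap F L D) ^ 3 * h3
  have hlt : ∀ V : HeightOneSpectrum (𝓞 L),
      V.asIdeal.comap (algebraMap (𝓞 F) (𝓞 L)) = v.asIdeal →
      V.valuation L (aeval (algebraMap F L D * (th : L)) (C x' - X - d * g' ^ 2 -
        (X ^ 3 + C ((a : F) * D ^ 2) * X + C ((b : F) * D ^ 3)) * q')) <
      V.valuation L (algebraMap F L x' - algebraMap F L D * (th : L)) := by
    intro V hV
    refine final_step hV hA ?_ hroot h2'
    obtain ⟨e, _, hVe⟩ := exists_val v V hV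
    rw [map_mul, hVe]
    exact mul_le_one' (pow_le_one₀ zero_le hDv) (V.valuation_le_one th)
  have hae : aeval (algebraMap F L D * (th : L)) (C x' - X - d * g' ^ 2 -
        (X ^ 3 + C ((a : F) * D ^ 2) * X + C ((b : F) * D ^ 3)) * q') =
      algebraMap F L x' - algebraMap F L D * (th : L) -
        δ * aeval (algebraMap F L D * (th : L)) g' ^ 2 := by
    rw [map_sub, map_sub, map_sub, map_mul, map_mul, map_pow, hd, aeval_C, aeval_X, map_add,
      map_add, map_pow, aeval_X, map_mul, aeval_X, aeval_C, aeval_C]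
    linear_combination (-(aeval (algebraMap F L D * (th : L)) q')) * hroot
  rw [hae] at hlt
  obtain ⟨V₀, hV₀⟩ := exists_above (L := L) v
  have hg0 : aeval (algebraMap F L D * (th : L)) g' ≠ 0 := by
    intro h0
    have h3 := hlt V₀ hV₀
    rw [h0, zero_pow two_ne_zero, mul_zero, sub_zero] at h3
    exact lt_irrefl _ h3
  refine ⟨x', y', (aeval (algebraMap F L D * (th : L)) g')⁻¹, hy'0, inv_ne_zero hg0, h1, ?_⟩
  intro V hV
  have h3 := hlt V hV
  have h4 : algebraMap F L x' - algebraMap F L D * (th : L) ≠ 0 := by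
    intro h0
    rw [h0, map_zero] at h3
    exact not_lt_zero h3
  have h5 : δ / ((algebraMap F L x' - algebraMap F L D * (th : L)) *
      (aeval (algebraMap F L D * (th : L)) g')⁻¹ ^ 2) - 1 =
      -((algebraMap F L x' - algebraMap F L D * (th : L) -
        δ * aeval (algebraMap F L D * (th : L)) g' ^ 2) /
        (algebraMap F L x' - algebraMap F L D * (th : L))) := by
    field_simp
    ring
  rw [h5, Valuation.map_neg, map_div₀, div_lt_one₀ (zero_lt_iff.2 ((Valuation.ne_zero_iff _).2 h4))]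
  exact h3

/-- the substitution -/
theorem sub_dvd {E : Type} [Field E] {A B m x : E} (hm : m ≠ 0) {d g : E[X]}
    (h : (X ^ 3 + C A * X + C B : E[X]) ∣ C x - X - d * g ^ 2) :
    (X ^ 3 + C (A * m ^ 4) * X + C (B * m ^ 6) : E[X]) ∣
      C (m ^ 2 * x) - X - d.comp (C (m⁻¹ ^ 2) * X) * (C m * g.comp (C (m⁻¹ ^ 2) * X)) ^ 2 := by
  obtain ⟨q, hq⟩ := h
  refine ⟨C (m⁻¹ ^ 4) * q.comp (C (m⁻¹ ^ 2) * X), ?_⟩
  have h1 := congrArg (fun p : E[X] => p.comp (C (m⁻¹ ^ 2) * X)) hq
  simp only [sub_comp, mul_comp, add_comp, C_comp, X_comp, pow_comp] at h1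
  have e1 : (C (m ^ 2 * x) : E[X]) = C (m ^ 2) * C x := by rw [← C_mul]
  have e2 : (C m * g.comp (C (m⁻¹ ^ 2) * X)) ^ 2 = C (m ^ 2) * g.comp (C (m⁻¹ ^ 2) * X) ^ 2 := by
    rw [mul_pow, ← C_pow]
  have e3 : (C (m ^ 2) : E[X]) * C (m⁻¹ ^ 2) = 1 := by
    rw [← C_mul, ← mul_pow, mul_inv_cancel₀ hm, one_pow, C_1]
  have e4 : (C (m ^ 2) : E[X]) * ((C (m⁻¹ ^ 2) * X) ^ 3 + C A * (C (m⁻¹ ^ 2) * X) + C B) =
      (X ^ 3 + C (A * m ^ 4) * X + C (B * m ^ 6)) * C (m⁻¹ ^ 4) := by
    have f1 : (C (m ^ 2) : E[X]) * (C (m⁻¹ ^ 2)) ^ 3 = C (m⁻¹ ^ 4) := by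
      rw [← C_pow, ← C_mul]
      congr 1
      field_simp
    have f2 : (C (m ^ 2) : E[X]) * (C A * C (m⁻¹ ^ 2)) = C (A * m ^ 4) * C (m⁻¹ ^ 4) := by
      rw [← C_mul, ← C_mul, ← C_mul]
      congr 1
      field_simp
    have f3 : (C (m ^ 2) : E[X]) * C B = C (B * m ^ 6) * C (m⁻¹ ^ 4) := by
      rw [← C_mul, ← C_mul]
      congr 1
      field_simp
    linear_combination X ^ 3 * f1 + X * f2 + f3
  rw [e1, e2]
  linear_combination C (m ^ 2) * h1 + X * e3 + q.comp (C (m⁻¹ ^ 2) * X) * e4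

/-- JOB APX. -/
theorem apx : S_APX := by
  intro F L _ _ _ _ _ a b th hcub D hD v δ _ d x y g hd hy hxy hdvd
  obtain ⟨s, t, ht, hst⟩ := IsFractionRing.div_surjective (A := 𝓞 F) D
  have ht0 : (t : F) ≠ 0 := by
    have := nonZeroDivisors.ne_zero ht
    exact_mod_cast this
  obtain ⟨m, hm0, hmD⟩ : ∃ m : F, m ≠ 0 ∧ v.valuation F (D * m ^ 2) ≤ 1 := by
    refine ⟨(t : F), ht0, ?_⟩
    have e : D * (t : F) ^ 2 = algebraMap (𝓞 F) F (s * t) := by
      rw [← hst, map_mul]
      have : algebraMap (𝓞 F) F t ≠ 0 := ht0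
      field_simp
    rw [e]
    exact v.valuation_le_one _
  obtain ⟨ι, hι⟩ : ∃ ι : F →+* v.adicCompletion F, ι = algebraMap F (v.adicCompletion F) := ⟨_, rfl⟩
  have hιm : ι m ≠ 0 := (_root_.map_ne_zero ι).2 hm0
  have hL : algebraMap F L m ≠ 0 := (_root_.map_ne_zero _).2 hm0
  rw [← hι] at hxy hdvd
  have hkey : LV a b th (D * m ^ 2) v δ := by
    refine apx_int (x := ι m ^ 2 * x) (y := ι m ^ 3 * y) (d := d.comp (C (m⁻¹ ^ 2) * X))
      (g := C (ι m) * g.comp (C ((ι m)⁻¹ ^ 2) * X)) hcub hmD ?_ (mul_ne_zero (pow_ne_zero 3 hιm) hy)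
      ?_ ?_
    · rw [aeval_comp, ← hd]
      congr 1
      rw [map_mul, aeval_C, aeval_X, map_mul, map_pow, map_pow, map_inv₀]
      field_simp
    · rw [← hι]
      simp only [map_mul, map_pow] at hxy ⊢
      linear_combination (ι m ^ 6) * hxy
    · rw [← hι]
      rw [Polynomial.map_add, Polynomial.map_add, Polynomial.map_mul, Polynomial.map_pow, map_X, map_C,
        map_C] at hdvd ⊢
      have h1 := sub_dvd hιm hdvd
      have e1 : ι ((a : F) * (D * m ^ 2) ^ 2) = ι ((a : F) * D ^ 2) * ι m ^ 4 := by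
        rw [← map_pow, ← map_mul]
        congr 1
        ring
      have e2 : ι ((b : F) * (D * m ^ 2) ^ 3) = ι ((b : F) * D ^ 3) * ι m ^ 6 := by
        rw [← map_pow, ← map_mul]
        congr 1
        ring
      have e3 : (d.comp (C (m⁻¹ ^ 2) * X)).map ι = (d.map ι).comp (C ((ι m)⁻¹ ^ 2) * X) := by
        rw [Polynomial.map_comp, Polynomial.map_mul, map_C, map_X, map_pow, map_inv₀]
      rw [e1, e2, e3]
      exact h1
  obtain ⟨x', y', η, hy', hη, h1, h2⟩ := hkey
  refine ⟨x' / m ^ 2, y' / m ^ 3, algebraMap F L m * η, div_ne_zero hy' (pow_ne_zero 3 hm0),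
    mul_ne_zero hL hη, ?_, ?_⟩
  · have e : ((x' / m ^ 2) ^ 3 + ((a : F) * D ^ 2) * (x' / m ^ 2) + (b : F) * D ^ 3) / (y' / m ^ 3) ^ 2 =
        (x' ^ 3 + ((a : F) * (D * m ^ 2) ^ 2) * x' + (b : F) * (D * m ^ 2) ^ 3) / y' ^ 2 := by
      field_simp
    rw [e]
    exact h1
  · intro V hV
    have e : (algebraMap F L (x' / m ^ 2) - algebraMap F L D * (th : L)) * (algebraMap F L m * η) ^ 2 =
        (algebraMap F L x' - algebraMap F L (D * m ^ 2) * (th : L)) * η ^ 2 := by
      rw [map_div₀, map_mul, map_pow]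
      field_simp
    rw [e]
    exact h2 V hV

end Pool.Agent.Q193.ESN
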